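import Pool.Agent.P8H10.KM.Stm

set_option autoImplicit false

/-!
# Project KM: packages KUM and ABE
-/

namespace Pool.Agent.P8H52.KM

open Pool.Agent.P8H10.KM

section
variable {Ω : Type} [Field Ω] [CharZero Ω] [IsAlgClosed Ω] [Algebra.IsAlgebraic ℚ Ω]

/-- elements fixed by all automorphisms are in the base field -/
theorem fix_mem (E : IntermediateField ℚ Ω) {x : Ω} (h : ∀ σ : Ω ≃ₐ[E] Ω, σ x = x) : x ∈ E := by
  have h1 : Algebra.IsAlgebraic E Ω := Algebra.IsAlgebraic.tower_top (K := ℚ) E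
  have h2 : IsAlgClosure E Ω := ⟨inferInstance, h1⟩
  have h3 : Normal E Ω := IsAlgClosure.normal E Ω
  have h4 : IsGalois E Ω := ⟨⟩
  have h5 := (InfiniteGalois.mem_bot_iff_fixed x).2 h
  rw [IntermediateField.mem_bot] at h5
  obtain ⟨y, hy⟩ := h5
  rw [← hy]
  exact y.2

omit [IsAlgClosed Ω] [Algebra.IsAlgebraic ℚ Ω] in
theorem fix_of_mem (E : IntermediateField ℚ Ω) {x : Ω} (h : x ∈ E) (σ : Ω ≃ₐ[E] Ω) : σ x = x :=
  σ.commutes ⟨x, h⟩

end

/-- package KUM -/
theorem kum : S_KUM := by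
  intro Ω _ _ _ _ E q hq hμ n c ρ hc hρ hsum i₀ J hJ
  classical
  have hz : ∀ i, ∀ σ : Ω ≃ₐ[E] Ω, σ (ρ i) / ρ i ∈ E := by
    intro i σ
    apply hμ
    rw [div_pow, ← map_pow, fix_of_mem E (hρ i).2 σ, div_self (pow_ne_zero _ (hρ i).1)]
  let χ : Fin n → (Ω ≃ₐ[E] Ω) →* Ω := fun i =>
    { toFun := fun σ => σ (ρ i) / ρ i
      map_one' := by
        show (1 : Ω ≃ₐ[E] Ω) (ρ i) / ρ i = 1
        rw [AlgEquiv.one_apply, div_self (hρ i).1]
      map_mul' := by
        intro σ τ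
        show (σ * τ) (ρ i) / ρ i = σ (ρ i) / ρ i * (τ (ρ i) / ρ i)
        have h0 := (hρ i).1
        have h1 : τ (ρ i) = (τ (ρ i) / ρ i) * ρ i := by field_simp
        rw [AlgEquiv.mul_apply]
        conv_lhs => rw [h1]
        rw [map_mul, fix_of_mem E (hz i τ) σ]
        ring }
  have hχ : ∀ i σ, χ i σ = σ (ρ i) / ρ i := fun i σ => rfl
  have hiff : ∀ i, ρ i / ρ i₀ ∈ E ↔ χ i = χ i₀ := by
    intro i
    constructor
    · intro h
      ext σ
      rw [hχ, hχ]
      have h1 := fix_of_mem E h σ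
      rw [map_div₀] at h1
      have h2 : σ (ρ i₀) ≠ 0 := by
        intro h3
        exact (hρ i₀).1 ((map_eq_zero σ).1 h3)
      rw [div_eq_div_iff h2 (hρ i₀).1] at h1
      rw [div_eq_div_iff (hρ i).1 (hρ i₀).1]
      linear_combination h1
    · intro h
      apply fix_mem
      intro σ
      have h1 : χ i σ = χ i₀ σ := by rw [h]
      rw [hχ, hχ, div_eq_div_iff (hρ i).1 (hρ i₀).1] at h1
      have h2 : σ (ρ i₀) ≠ 0 := by
        intro h3
        exact (hρ i₀).1 ((map_eq_zero σ).1 h3)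
      rw [map_div₀, div_eq_div_iff h2 (hρ i₀).1]
      linear_combination h1
  have hli := linearIndependent_monoidHom (Ω ≃ₐ[E] Ω) Ω
  rw [linearIndependent_iff] at hli
  have h1 := hli (∑ i, Finsupp.single (χ i) (c i * ρ i)) (by
    rw [map_sum]
    simp only [Finsupp.linearCombination_single]
    funext σ
    rw [Finset.sum_apply]
    simp only [Pi.smul_apply, smul_eq_mul, Pi.zero_apply]
    have h2 := congrArg σ hsum
    rw [map_sum, map_zero] at h2
    rw [← h2]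
    apply Finset.sum_congr rfl
    intro i _
    rw [map_mul, fix_of_mem E (hc i) σ]
    have h3 : (χ i) σ = σ (ρ i) / ρ i := rfl
    rw [h3]
    have h0 := (hρ i).1
    field_simp)
  have h2 := congrArg (fun f => f (χ i₀)) h1
  simp only [Finsupp.coe_finsetSum, Finset.sum_apply, Finsupp.single_apply, Finsupp.coe_zero,
    Pi.zero_apply] at h2
  rw [← h2, ← Finset.sum_filter]
  apply Finset.sum_congr _ (fun _ _ => rfl)
  ext i
  rw [Finset.mem_filter, hJ, hiff]
  simp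

/-- package ABE -/
theorem abe : S_ABE := by
  intro Ω _ _ _ _ F W hW hWF q hq c hc0 hcq hcm
  classical
  have : NeZero q := ⟨hq.ne'⟩
  have : NeZero (q : Ω) := ⟨by exact_mod_cast hq.ne'⟩
  obtain ⟨ζ, hζ⟩ : ∃ ζ : Ω, IsPrimitiveRoot ζ q := by
    obtain ⟨ζ, h⟩ := IsAlgClosed.exists_root (Polynomial.cyclotomic q Ω)
      (Polynomial.degree_cyclotomic_pos q Ω hq).ne'
    exact ⟨ζ, Polynomial.isRoot_cyclotomic_iff.1 h⟩
  -- the action on the roots of unity
  have ha : ∀ σ : Ω ≃ₐ[F] Ω, ∃ a : ℕ, ∀ η : Ω, η ^ q = 1 → σ η = η ^ a := by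
    intro σ
    have h1 : (σ ζ) ^ q = 1 := by rw [← map_pow, hζ.pow_eq_one, map_one]
    obtain ⟨a, -, h2⟩ := hζ.eq_pow_of_pow_eq_one h1
    refine ⟨a, fun η hη => ?_⟩
    obtain ⟨k, -, h3⟩ := hζ.eq_pow_of_pow_eq_one hη
    rw [← h3, map_pow, ← h2, ← pow_mul, ← pow_mul, mul_comm]
  -- automorphisms which fix the roots of unity fix `c`
  have hfix : ∀ σ : Ω ≃ₐ[F] Ω, (∀ η : Ω, η ^ q = 1 → σ η = η) → σ c = c := by
    intro σ hσ
    let K : IntermediateField ℚ Ω :=
      { carrier := {x | σ x = x}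
        mul_mem' := fun {a b} ha hb => by
          show σ (a * b) = a * b
          rw [map_mul, show σ a = a from ha, show σ b = b from hb]
        add_mem' := fun {a b} ha hb => by
          show σ (a + b) = a + b
          rw [map_add, show σ a = a from ha, show σ b = b from hb]
        algebraMap_mem' := fun r => by
          show σ (algebraMap ℚ Ω r) = algebraMap ℚ Ω r
          simp
        inv_mem' := fun a ha => by
          show σ a⁻¹ = a⁻¹
          rw [map_inv₀, show σ a = a from ha] }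
    have hK : F ⊔ IntermediateField.adjoin ℚ {z : Ω | z ^ q = 1} ≤ K := by
      apply sup_le
      · intro x hx
        exact fix_of_mem F hx σ
      · rw [IntermediateField.adjoin_le_iff]
        intro x hx
        exact hσ x hx
    exact hK hcm
  have hcomm : ∀ σ τ : Ω ≃ₐ[F] Ω, σ (τ c) = τ (σ c) := by
    intro σ τ
    have h1 := hfix ((τ * σ)⁻¹ * (σ * τ)) (by
      intro η hη
      obtain ⟨a, ha1⟩ := ha σ
      obtain ⟨b, hb1⟩ := ha τ
      have e1 : (σ * τ) η = (τ * σ) η := by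
        rw [AlgEquiv.mul_apply, AlgEquiv.mul_apply, hb1 η hη, ha1 η hη, map_pow, map_pow, ha1 η hη,
          hb1 η hη, ← pow_mul, ← pow_mul, mul_comm]
      rw [AlgEquiv.mul_apply, e1, ← AlgEquiv.mul_apply, inv_mul_cancel, AlgEquiv.one_apply])
    have h2 := congrArg (τ * σ) h1
    rw [← AlgEquiv.mul_apply, mul_inv_cancel_left] at h2
    exact h2
  -- the subgroup `H`
  let H : AddSubgroup ℤ :=
    { carrier := {n | ∃ η : Ω, η ^ q = 1 ∧ c ^ n * η ∈ F}
      zero_mem' := ⟨1, one_pow _, by rw [zpow_zero, mul_one]; exact F.one_mem⟩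
      add_mem' := by
        rintro m n ⟨η, h1, h2⟩ ⟨θ, h3, h4⟩
        refine ⟨η * θ, by rw [mul_pow, h1, h3, mul_one], ?_⟩
        have e1 : c ^ (m + n) * (η * θ) = (c ^ m * η) * (c ^ n * θ) := by
          rw [zpow_add₀ hc0]; ring
        rw [e1]
        exact F.mul_mem h2 h4
      neg_mem' := by
        rintro m ⟨η, h1, h2⟩
        refine ⟨η⁻¹, by rw [inv_pow, h1, inv_one], ?_⟩
        have e1 : c ^ (-m) * η⁻¹ = (c ^ m * η)⁻¹ := by
          rw [zpow_neg, mul_inv]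
        rw [e1]
        exact F.inv_mem h2 }
  have hH : ∀ n : ℤ, n ∈ H ↔ ∃ η : Ω, η ^ q = 1 ∧ c ^ n * η ∈ F := fun n => Iff.rfl
  have hqH : (q : ℤ) ∈ H := by
    rw [hH]
    exact ⟨1, one_pow _, by rw [mul_one, zpow_natCast]; exact hcq⟩
  have haH : ∀ (τ : Ω ≃ₐ[F] Ω) (a : ℕ), (∀ η : Ω, η ^ q = 1 → τ η = η ^ a) → (1 - a : ℤ) ∈ H := by
    intro τ a hτ
    rw [hH]
    have hr : ∀ σ : Ω ≃ₐ[F] Ω, (σ c / c) ^ q = 1 := by
      intro σ
      rw [div_pow, ← map_pow, fix_of_mem F hcq σ, div_self (pow_ne_zero _ hc0)]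
    have hs : ∀ σ : Ω ≃ₐ[F] Ω, σ c = c * (σ c / c) := by
      intro σ; field_simp
    refine ⟨τ c / c, hr τ, ?_⟩
    apply fix_mem
    intro σ
    obtain ⟨u, hu⟩ : ∃ u, u = σ c / c := ⟨_, rfl⟩
    obtain ⟨v, hv⟩ : ∃ v, v = τ c / c := ⟨_, rfl⟩
    have hu1 : σ c = c * u := by rw [hu]; exact hs σ
    have hv1 : τ c = c * v := by rw [hv]; exact hs τ
    have hu0 : u ≠ 0 := by
      intro h
      have := hr σ
      rw [← hu, h, zero_pow hq.ne'] at this
      exact zero_ne_one this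
    have h1 := hcomm σ τ
    rw [hu1, hv1, map_mul, map_mul, hu1, hv1, hτ u (by rw [hu]; exact hr σ)] at h1
    have h2 : u * σ v = v * u ^ a := by
      have h3 : c * (u * σ v) = c * (v * u ^ a) := by linear_combination h1
      exact mul_left_cancel₀ hc0 h3
    rw [← hv, map_mul, map_zpow₀, hu1, mul_zpow]
    have h4 : u ^ (1 - a : ℤ) * u ^ a = u := by
      rw [← zpow_natCast, ← zpow_add₀ hu0]
      simp
    have h5 : u ^ (1 - a : ℤ) * σ v * u = v * u := by
      calc u ^ (1 - a : ℤ) * σ v * u = u ^ (1 - a : ℤ) * (u * σ v) := by ring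
        _ = u ^ (1 - a : ℤ) * (v * u ^ a) := by rw [h2]
        _ = v * (u ^ (1 - a : ℤ) * u ^ a) := by ring
        _ = v * u := by rw [h4]
    have h6 := mul_right_cancel₀ hu0 h5
    rw [mul_assoc, h6]
  obtain ⟨h0, hh0⟩ := Int.subgroup_cyclic H
  have hmem : ∀ n : ℤ, n ∈ H ↔ (h0.natAbs : ℤ) ∣ n := by
    intro n
    rw [hh0, AddSubgroup.mem_closure_singleton, Int.natAbs_dvd]
    constructor
    · rintro ⟨k, rfl⟩
      exact ⟨k, by rw [zsmul_eq_mul, mul_comm]; rfl⟩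
    · rintro ⟨k, rfl⟩
      exact ⟨k, by rw [zsmul_eq_mul, mul_comm]; rfl⟩
  obtain ⟨h, hh⟩ : ∃ h : ℕ, h = h0.natAbs := ⟨_, rfl⟩
  rw [← hh] at hmem
  have hhq : h ∣ q := by
    have := (hmem q).1 hqH
    exact_mod_cast this
  obtain ⟨r, hr⟩ := hhq
  have hh1 : 0 < h := by
    rcases Nat.eq_zero_or_pos h with h' | h'
    · rw [h', zero_mul] at hr; omega
    · exact h'
  have hζF : ζ ^ r ∈ F := by
    apply fix_mem
    intro τ
    obtain ⟨a, ha1⟩ := ha τ
    have h1 := (hmem _).1 (haH τ a ha1)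
    rw [ha1 _ (by rw [← pow_mul, mul_comm, pow_mul, hζ.pow_eq_one, one_pow])]
    have h2 : (q : ℤ) ∣ (r * a : ℤ) - r := by
      obtain ⟨k, hk⟩ := h1
      refine ⟨-k, ?_⟩
      rw [hr]
      push_cast
      linear_combination (-(r : ℤ)) * hk
    have h3 : ζ ^ ((r * a : ℕ) : ℤ) = ζ ^ ((r : ℕ) : ℤ) := by
      have h4 : ζ ^ (((r * a : ℕ) : ℤ) - (r : ℕ)) = 1 := by
        rw [hζ.zpow_eq_one_iff_dvd]
        push_cast
        exact h2
      rw [zpow_sub₀ (hζ.ne_zero hq.ne'), div_eq_one_iff_eq (zpow_ne_zero _ (hζ.ne_zero hq.ne'))] at h4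
      exact h4
    rw [zpow_natCast, zpow_natCast] at h3
    rw [← pow_mul]
    exact h3
  have h1 := hWF _ hζF h hh1 (by rw [← pow_mul, mul_comm, ← hr, hζ.pow_eq_one])
  rw [← pow_mul, hζ.pow_eq_one_iff_dvd, hr] at h1
  have hr0 : 0 < r := by
    rcases Nat.eq_zero_or_pos r with h' | h'
    · rw [h', mul_zero] at hr; omega
    · exact h'
  have h2 : h ∣ W := by
    rw [mul_comm h r] at h1
    exact (Nat.mul_dvd_mul_iff_left hr0).1 h1
  have h3 : (W : ℤ) ∈ H := (hmem _).2 (by exact_mod_cast h2)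
  rw [hH] at h3
  simpa only [zpow_natCast] using h3

end Pool.Agent.P8H52.KM
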