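import Pool.Agent.P8H10.KM.Stm

set_option autoImplicit false

/-!
# Project KM: package MAN (Mann's theorem with algebraic coefficients)
-/

namespace Pool.Agent.P8H52.KM.Man

open Finset Polynomial IntermediateField

section
variable {Ω : Type} [Field Ω] [CharZero Ω]

/-- the field generated by the roots of unity of order dividing `f` -/
noncomputable def CF (Ω : Type) [Field Ω] [CharZero Ω] (f : ℕ) : IntermediateField ℚ Ω :=
  IntermediateField.adjoin ℚ {z : Ω | z ^ f = 1}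

lemma CF_mono {f m : ℕ} (h : f ∣ m) : CF Ω f ≤ CF Ω m := by
  unfold CF
  apply IntermediateField.adjoin.mono
  intro z hz
  obtain ⟨k, rfl⟩ := h
  show z ^ (f * k) = 1
  rw [pow_mul, show z ^ f = 1 from hz, one_pow]

lemma mem_CF {f : ℕ} {z : Ω} (h : z ^ f = 1) : z ∈ CF Ω f :=
  IntermediateField.subset_adjoin _ _ h

lemma CF_eq {m : ℕ} (hm : 0 < m) {ζ : Ω} (h : IsPrimitiveRoot ζ m) : CF Ω m = ℚ⟮ζ⟯ := by
  have : NeZero m := ⟨by omega⟩
  apply le_antisymm
  · unfold CF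
    rw [IntermediateField.adjoin_le_iff]
    intro z hz
    obtain ⟨i, -, hi⟩ := h.eq_pow_of_pow_eq_one hz
    rw [← hi]
    exact pow_mem (mem_adjoin_simple_self ℚ ζ) i
  · rw [IntermediateField.adjoin_simple_le_iff]
    exact mem_CF h.pow_eq_one

lemma CF_rank {m : ℕ} (hm : 0 < m) {ζ : Ω} (h : IsPrimitiveRoot ζ m) :
    Module.finrank ℚ (CF Ω m) = m.totient := by
  rw [CF_eq hm h]
  have hi1 : IsIntegral ℚ ζ := (h.isIntegral hm).tower_top
  rw [IntermediateField.adjoin.finrank hi1, ← cyclotomic_eq_minpoly_rat h hm, natDegree_cyclotomic]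

lemma CF_fin {m : ℕ} (hm : 0 < m) {ζ : Ω} (h : IsPrimitiveRoot ζ m) : FiniteDimensional ℚ (CF Ω m) := by
  rw [CF_eq hm h]
  exact IntermediateField.adjoin.finiteDimensional (h.isIntegral hm).tower_top

lemma fr {E : IntermediateField ℚ Ω} (hE : FiniteDimensional ℚ E) {θ : Ω} (hθ : IsIntegral ℚ θ) :
    Module.finrank ℚ ((IntermediateField.adjoin E ({θ} : Set Ω)).restrictScalars ℚ) =
      Module.finrank ℚ E * (minpoly E θ).natDegree ∧
    FiniteDimensional ℚ ((IntermediateField.adjoin E ({θ} : Set Ω)).restrictScalars ℚ) := by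
  have hint' : IsIntegral E θ := hθ.tower_top
  have e3 := IntermediateField.adjoin.finrank hint'
  have f2 : FiniteDimensional E (IntermediateField.adjoin E ({θ} : Set Ω)) :=
    IntermediateField.adjoin.finiteDimensional hint'
  have f3 : FiniteDimensional ℚ (IntermediateField.adjoin E ({θ} : Set Ω)) :=
    FiniteDimensional.trans ℚ E _
  have e4 : Module.finrank ℚ E * Module.finrank E (IntermediateField.adjoin E ({θ} : Set Ω)) =
      Module.finrank ℚ (IntermediateField.adjoin E ({θ} : Set Ω)) :=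
    Module.finrank_mul_finrank _ _ _
  refine ⟨?_, f3⟩
  rw [← e3, e4]
  rfl

/-- degrees do not increase with the base field -/
lemma deg_mono {E E' : IntermediateField ℚ Ω} (h : E ≤ E') {α : Ω} (hα : IsIntegral ℚ α) :
    (minpoly E' α).natDegree ≤ (minpoly E α).natDegree := by
  have hint : IsIntegral E α := hα.tower_top
  obtain ⟨g, hg⟩ : ∃ g : E →+* E', ∀ x, ((g x : E') : Ω) = x :=
    ⟨(IntermediateField.inclusion h).toRingHom, fun x => rfl⟩
  have h1 : (minpoly E α).map g ≠ 0 := (Polynomial.map_ne_zero_iff g.injective).2 (minpoly.ne_zero hint)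
  have h2 : aeval α ((minpoly E α).map g) = 0 := by
    rw [aeval_def, eval₂_map]
    have h3 : (algebraMap E' Ω).comp g = algebraMap E Ω := by
      ext x
      exact hg x
    rw [h3, ← aeval_def]
    exact minpoly.aeval E α
  have h3 := natDegree_le_natDegree (minpoly.degree_le_of_ne_zero E' α h1 h2)
  rwa [natDegree_map] at h3

lemma eqs (E : IntermediateField ℚ Ω) (θ : Ω) :
    (IntermediateField.adjoin E ({θ} : Set Ω)).restrictScalars ℚ = E ⊔ ℚ⟮θ⟯ :=
  IntermediateField.restrictScalars_adjoin_eq_sup ℚ E {θ}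

/-- the field generated by `α` and the roots of unity of order dividing `f` -/
noncomputable def KK (f : ℕ) (α : Ω) : IntermediateField ℚ Ω := CF Ω f ⊔ ℚ⟮α⟯

lemma CF_le_KK (f : ℕ) (α : Ω) : CF Ω f ≤ KK f α := le_sup_left

lemma mem_KK (f : ℕ) (α : Ω) : α ∈ KK f α :=
  (le_sup_right : ℚ⟮α⟯ ≤ KK f α) (mem_adjoin_simple_self ℚ α)

lemma KK_rank {m : ℕ} (hm : 0 < m) {ζ : Ω} (h : IsPrimitiveRoot ζ m) {α : Ω} (hα : IsIntegral ℚ α) :
    Module.finrank ℚ (KK m α) = m.totient * (minpoly (CF Ω m) α).natDegree ∧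
    FiniteDimensional ℚ (KK m α) := by
  have h1 := fr (CF_fin hm h) hα
  rw [CF_rank hm h] at h1
  unfold KK
  rw [← eqs]
  exact h1

/-- the degree of `θ` over `F (μ_m)` is at least `D` -/
lemma deg_ge {α : Ω} (hα : IsIntegral ℚ α) {m n D : ℕ} (hm : 0 < m) (hn : 0 < n) {ζm ζn θ : Ω}
    (h1 : IsPrimitiveRoot ζm m) (h2 : IsPrimitiveRoot ζn n) (hint : IsIntegral ℚ θ)
    (hdeg : (minpoly (CF Ω m) α).natDegree = (minpoly (CF Ω n) α).natDegree)
    (hmem : ζn ∈ (IntermediateField.adjoin (KK m α) ({θ} : Set Ω)))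
    (hD : m.totient * D ≤ n.totient) : D ≤ (minpoly (KK m α) θ).natDegree := by
  have e1 := KK_rank hm h1 hα
  have e2 := KK_rank hn h2 hα
  have e3 := fr e1.2 hint
  have hle : KK n α ≤ (IntermediateField.adjoin (KK m α) ({θ} : Set Ω)).restrictScalars ℚ := by
    unfold KK
    rw [CF_eq hn h2]
    apply sup_le
    · rw [IntermediateField.adjoin_simple_le_iff]
      exact hmem
    · rw [IntermediateField.adjoin_simple_le_iff]
      exact (IntermediateField.adjoin (KK m α) ({θ} : Set Ω)).algebraMap_mem ⟨α, mem_KK m α⟩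
  have f4 := e3.2
  have e5 : Module.finrank ℚ (KK n α) ≤
      Module.finrank ℚ ((IntermediateField.adjoin (KK m α) ({θ} : Set Ω)).restrictScalars ℚ) :=
    LinearMap.finrank_le_finrank_of_injective (f := (IntermediateField.inclusion hle).toLinearMap)
      (IntermediateField.inclusion hle).injective
  rw [e3.1, e2.1, e1.1, ← hdeg] at e5
  have hpos : 0 < m.totient := Nat.totient_pos.2 hm
  have hd : 0 < (minpoly (CF Ω m) α).natDegree := minpoly.natDegree_pos hα.tower_top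
  have e6 : m.totient * (minpoly (CF Ω m) α).natDegree * D ≤
      m.totient * (minpoly (CF Ω m) α).natDegree * (minpoly (KK m α) θ).natDegree := by
    refine le_trans ?_ e5
    calc m.totient * (minpoly (CF Ω m) α).natDegree * D
        = (m.totient * D) * (minpoly (CF Ω m) α).natDegree := by ring
      _ ≤ n.totient * (minpoly (CF Ω m) α).natDegree := Nat.mul_le_mul_right _ hD
  exact Nat.le_of_mul_le_mul_left e6 (Nat.mul_pos hpos hd)

/-- linear independence of the powers of `θ` -/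
lemma li {D : ℕ} {K : IntermediateField ℚ Ω} {θ : Ω} (hD : D ≤ (minpoly K θ).natDegree)
    (A : ℕ → Ω) (hA : ∀ s, A s ∈ K) (h : ∑ s ∈ range D, A s * θ ^ s = 0) : ∀ s < D, A s = 0 := by
  intro s hs
  by_contra hne
  obtain ⟨p, hp⟩ : ∃ p : K[X], p = ∑ s ∈ range D, C (⟨A s, hA s⟩ : K) * X ^ s := ⟨_, rfl⟩
  have hc : ∀ t, t < D → p.coeff t = ⟨A t, hA t⟩ := by
    intro t ht
    rw [hp, finsetSum_coeff]
    simp only [coeff_C_mul, coeff_X_pow]
    rw [sum_eq_single t]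
    · simp
    · intro b _ hb
      simp [Ne.symm hb]
    · intro h'
      exact absurd (mem_range.2 ht) h'
  have hp0 : p ≠ 0 := by
    intro h0
    have := hc s hs
    rw [h0, coeff_zero] at this
    apply hne
    exact (congrArg (fun x : K => (x : Ω)) this).symm
  have hev : aeval θ p = 0 := by
    rw [hp, map_sum, ← h]
    refine sum_congr rfl fun t _ => ?_
    simp only [map_mul, aeval_C, map_pow, aeval_X]
    rfl
  have h1 := minpoly.degree_le_of_ne_zero K θ hp0 hev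
  have h2 : natDegree (minpoly K θ) ≤ natDegree p := natDegree_le_natDegree h1
  have h3 : p.degree < D := by
    rw [hp]
    refine (degree_sum_le _ _).trans_lt ?_
    rw [Finset.sup_lt_iff (by exact WithBot.bot_lt_coe D)]
    intro t ht
    refine (degree_C_mul_X_pow_le _ _).trans_lt ?_
    exact_mod_cast mem_range.1 ht
  have h4 : natDegree p < D := by
    rw [natDegree_lt_iff_degree_lt hp0]
    exact h3
  omega

/-- all the terms of a minimal vanishing sum are in one class -/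
lemma classes {ι : Type*} {D : ℕ} {K : IntermediateField ℚ Ω} {θ : Ω} (hD : D ≤ (minpoly K θ).natDegree)
    (I : Finset ι) (c ω : ι → Ω) (s : ι → ℕ)
    (hc : ∀ i ∈ I, c i ∈ K) (hω : ∀ i ∈ I, ω i ∈ K) (hs : ∀ i ∈ I, s i < D)
    (hint : ∑ i ∈ I, c i * (ω i * θ ^ s i) = 0)
    (hmin : ∀ J ⊆ I, J.Nonempty → ∑ i ∈ J, c i * (ω i * θ ^ s i) = 0 → J = I) :
    ∀ i ∈ I, ∀ j ∈ I, s i = s j := by
  classical
  intro i hi j hj
  have e1 : ∑ i ∈ I, c i * (ω i * θ ^ s i) =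
      ∑ t ∈ range D, (∑ k ∈ I.filter (fun k => s k = t), c k * ω k) * θ ^ t := by
    rw [← sum_fiberwise_of_maps_to (s := I) (t := range D) (g := s) (fun k hk => mem_range.2 (hs k hk))]
    refine sum_congr rfl fun t _ => ?_
    rw [sum_mul]
    refine sum_congr rfl fun k hk => ?_
    rw [(mem_filter.1 hk).2]
    ring
  rw [e1] at hint
  have h1 := li hD (fun t => ∑ k ∈ I.filter (fun k => s k = t), c k * ω k)
    (fun t => sum_mem fun k hk => mul_mem (hc k (mem_filter.1 hk).1) (hω k (mem_filter.1 hk).1)) hint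
    (s i) (hs i hi)
  have h2 : I.filter (fun k => s k = s i) = I := by
    refine hmin _ (filter_subset _ _) ⟨i, mem_filter.2 ⟨hi, rfl⟩⟩ ?_
    have e2 : ∑ k ∈ I.filter (fun k => s k = s i), c k * (ω k * θ ^ s k) =
        (∑ k ∈ I.filter (fun k => s k = s i), c k * ω k) * θ ^ s i := by
      rw [sum_mul]
      refine sum_congr rfl fun k hk => ?_
      rw [(mem_filter.1 hk).2]
      ring
    rw [e2, h1, zero_mul]
  have h3 : j ∈ I.filter (fun k => s k = s i) := by rw [h2]; exact hj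
  exact (mem_filter.1 h3).2.symm

lemma finish {ι : Type*} {m D : ℕ} {K : IntermediateField ℚ Ω} {θ : Ω} (hD : D ≤ (minpoly K θ).natDegree)
    (hθ0 : θ ≠ 0) (I : Finset ι) (c z ω : ι → Ω)
    (s : ι → ℕ) (u : Ω) (hc : ∀ i ∈ I, c i ∈ K) (hω : ∀ i ∈ I, ω i ∈ K ∧ ω i ^ m = 1) (hs : ∀ i ∈ I, s i < D)
    (hu0 : u ≠ 0) (hzu : ∀ i ∈ I, z i * u = ω i * θ ^ s i)
    (hint : ∑ i ∈ I, c i * z i = 0)
    (hmin : ∀ J ⊆ I, J.Nonempty → ∑ i ∈ J, c i * z i = 0 → J = I) :
    ∀ i ∈ I, ∀ j ∈ I, (z i / z j) ^ m = 1 := by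
  have e : ∀ J ⊆ I, ∑ i ∈ J, c i * (ω i * θ ^ s i) = u * ∑ i ∈ J, c i * z i := by
    intro J hJ
    rw [mul_sum]
    refine sum_congr rfl fun i hi => ?_
    rw [← hzu i (hJ hi)]
    ring
  have h1 := classes hD I c ω s hc (fun i hi => (hω i hi).1) hs
    (by rw [e I (subset_refl _), hint, mul_zero])
    (by
      intro J hJ hJn hJi
      rw [e J hJ] at hJi
      exact hmin J hJ hJn ((mul_eq_zero.1 hJi).resolve_left hu0))
  intro i hi j hj
  have h2 : z i / z j = ω i / ω j := by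
    have h3 : z i / z j = (z i * u) / (z j * u) := by rw [mul_div_mul_right _ _ hu0]
    rw [h3, hzu i hi, hzu j hj, h1 i hi j hj, mul_div_mul_right _ _ (pow_ne_zero _ hθ0)]
  rw [h2, div_pow, (hω i hi).2, (hω j hj).2, div_one]

omit [CharZero Ω] in
/-- the exponents can be split -/
lemma split_exp {l m : ℕ} (hl : 0 < l) (hcop : Nat.Coprime l m) {ζ : Ω} (h : ζ ^ (l * m) = 1) (t : ℕ) :
    ∃ a b : ℕ, b < l ∧ ζ ^ t = (ζ ^ l) ^ a * (ζ ^ m) ^ b := by
  obtain ⟨x, hx1, hx2⟩ := Nat.chineseRemainder hcop t 0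
  obtain ⟨y, hy1, hy2⟩ := Nat.chineseRemainder hcop 0 t
  have hxm : m ∣ x := (Nat.modEq_zero_iff_dvd).1 hx2
  have hyl : l ∣ y := (Nat.modEq_zero_iff_dvd).1 hy1
  obtain ⟨b, rfl⟩ := hxm
  obtain ⟨a, rfl⟩ := hyl
  have h1 : l * a + m * b ≡ t [MOD l] := by simpa using Nat.ModEq.add hy1 hx1
  have h2 : l * a + m * b ≡ t [MOD m] := by simpa using Nat.ModEq.add hy2 hx2
  have h3 : l * a + m * b ≡ t [MOD (l * m)] := (Nat.modEq_and_modEq_iff_modEq_mul hcop).1 ⟨h1, h2⟩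
  refine ⟨a, b % l, Nat.mod_lt _ hl, ?_⟩
  have h4 : ζ ^ t = ζ ^ (l * a + m * b) := by
    rw [pow_eq_pow_mod t h, pow_eq_pow_mod (l * a + m * b) h, h3]
  have h5 : (ζ ^ m) ^ l = 1 := by rw [← pow_mul, mul_comm m l, h]
  rw [h4, pow_add, pow_mul, pow_mul, pow_eq_pow_mod b h5]

end

section
variable {Ω : Type} [Field Ω] [CharZero Ω] [IsAlgClosed Ω]

lemma exists_prim {q : ℕ} (hq : 0 < q) : ∃ ζ : Ω, IsPrimitiveRoot ζ q := by
  have : NeZero q := ⟨hq.ne'⟩
  have : NeZero (q : Ω) := ⟨by exact_mod_cast hq.ne'⟩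
  obtain ⟨ζ, h⟩ := IsAlgClosed.exists_root (Polynomial.cyclotomic q Ω)
    (Polynomial.degree_cyclotomic_pos q Ω hq).ne'
  exact ⟨ζ, Polynomial.isRoot_cyclotomic_iff.1 h⟩

omit [IsAlgClosed Ω] in
lemma isInt_of_pow {z : Ω} {n : ℕ} (hn : 0 < n) (h : z ^ n = 1) : IsIntegral ℚ z := by
  refine IsIntegral.of_pow hn ?_
  rw [h]
  exact isIntegral_one

lemma step {ι : Type*} {α : Ω} (hα : IsIntegral ℚ α) {m l : ℕ} (hl : l.Prime) (hm : 0 < m)
    (hdeg : (minpoly (CF Ω m) α).natDegree = (minpoly (CF Ω (l * m)) α).natDegree) (I : Finset ι)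
    (hI : l ∣ m ∨ I.card < l) (c z : ι → Ω) (hc : ∀ i ∈ I, c i ∈ ℚ⟮α⟯) {N : ℕ} (hN : 0 < N)
    (hz : ∀ i ∈ I, z i ^ N = 1) (hint : ∑ i ∈ I, c i * z i = 0)
    (hmin : ∀ J ⊆ I, J.Nonempty → ∑ i ∈ J, c i * z i = 0 → J = I)
    (hn : ∀ i ∈ I, ∀ j ∈ I, (z i / z j) ^ (l * m) = 1) : ∀ i ∈ I, ∀ j ∈ I, (z i / z j) ^ m = 1 := by
  classical
  intro i0 hi0
  have hl0 : 0 < l := hl.pos
  have hn0 : 0 < l * m := Nat.mul_pos hl0 hm
  have : NeZero (l * m) := ⟨by omega⟩
  obtain ⟨ζ, h⟩ : ∃ ζ : Ω, IsPrimitiveRoot ζ (l * m) := exists_prim hn0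
  have hζ1 : ζ ^ (l * m) = 1 := h.pow_eq_one
  have hζ0 : ζ ≠ 0 := h.ne_zero (by omega)
  have hζi : IsIntegral ℚ ζ := isInt_of_pow hn0 hζ1
  have h1 : IsPrimitiveRoot (ζ ^ l) m := h.pow hn0 rfl
  have hi1 : (ζ ^ l) ^ m = 1 := h1.pow_eq_one
  have hcK : ∀ i ∈ I, c i ∈ KK m α := fun i hi => (le_sup_right : ℚ⟮α⟯ ≤ KK m α) (hc i hi)
  have hK1 : ∀ a : ℕ, (ζ ^ l) ^ a ∈ KK m α :=
    fun a => CF_le_KK m α (pow_mem (mem_CF hi1) a)
  have hK3 : ∀ a : ℕ, ((ζ ^ l) ^ a) ^ m = 1 := fun a => by rw [pow_right_comm, hi1, one_pow]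
  have hz0 : z i0 ≠ 0 := by
    intro h0
    have := hz i0 hi0
    rw [h0, zero_pow (by omega)] at this
    exact zero_ne_one this
  -- exponents of the quotients
  have hex : ∀ i : ι, ∃ t : ℕ, i ∈ I → z i * (z i0)⁻¹ = ζ ^ t := by
    intro i
    by_cases hi : i ∈ I
    · obtain ⟨t, -, ht⟩ := h.eq_pow_of_pow_eq_one (hn i hi i0 hi0)
      exact ⟨t, fun _ => by rw [ht, div_eq_mul_inv]⟩
    · exact ⟨0, fun h' => absurd h' hi⟩
  choose t ht using hex
  by_cases hdvd : l ∣ m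
  · -- the prime divides `m`
    have hD : l ≤ (minpoly (KK m α) ζ).natDegree := by
      refine deg_ge hα hm hn0 h1 h hζi hdeg (mem_adjoin_simple_self _ ζ) ?_
      rw [Nat.totient_mul_of_prime_of_dvd hl hdvd, mul_comm]
    have hsplit : ∀ i : ℕ, ζ ^ i = (ζ ^ l) ^ (i / l) * ζ ^ (i % l) := by
      intro i
      rw [← pow_mul, ← pow_add, Nat.div_add_mod]
    exact finish hD hζ0 I c z (fun i => (ζ ^ l) ^ (t i / l))
      (fun i => t i % l) (z i0)⁻¹ hcK (fun i _ => ⟨hK1 _, hK3 _⟩)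
      (fun i _ => Nat.mod_lt _ hl0) (inv_ne_zero hz0)
      (fun i hi => by rw [ht i hi]; exact hsplit _) hint hmin i0 hi0
  · -- the prime does not divide `m`
    have hcard : I.card < l := hI.resolve_left hdvd
    have hcop : Nat.Coprime l m := (Nat.Prime.coprime_iff_not_dvd hl).2 hdvd
    have h2 : IsPrimitiveRoot (ζ ^ m) l := h.pow hn0 (mul_comm l m)
    have hξ1 : (ζ ^ m) ^ l = 1 := h2.pow_eq_one
    have hξ0 : ζ ^ m ≠ 0 := pow_ne_zero _ hζ0
    have hξi : IsIntegral ℚ (ζ ^ m) := hζi.pow _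
    have hmem : ζ ∈ IntermediateField.adjoin (KK m α) ({ζ ^ m} : Set Ω) := by
      obtain ⟨a, b, -, hab⟩ := split_exp hl0 hcop hζ1 1
      rw [pow_one] at hab
      have key1 : (ζ ^ l) ^ a ∈ IntermediateField.adjoin (KK m α) ({ζ ^ m} : Set Ω) :=
        (IntermediateField.adjoin (KK m α) ({ζ ^ m} : Set Ω)).algebraMap_mem
          ⟨(ζ ^ l) ^ a, hK1 a⟩
      have key2 : (ζ ^ m) ^ b ∈ IntermediateField.adjoin (KK m α) ({ζ ^ m} : Set Ω) :=
        pow_mem (mem_adjoin_simple_self _ (ζ ^ m)) b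
      have key3 : ∀ x : Ω, x = (ζ ^ l) ^ a * (ζ ^ m) ^ b →
          x ∈ IntermediateField.adjoin (KK m α) ({ζ ^ m} : Set Ω) := by
        intro x hx
        rw [hx]
        exact mul_mem key1 key2
      exact key3 ζ hab
    have hD : l - 1 ≤ (minpoly (KK m α) (ζ ^ m)).natDegree := by
      refine deg_ge hα hm hn0 h1 h hξi hdeg hmem ?_
      rw [Nat.totient_mul_of_prime_of_not_dvd hl hdvd, mul_comm]
    have hab : ∀ i : ι, ∃ ab : ℕ × ℕ, ab.2 < l ∧ ζ ^ t i = (ζ ^ l) ^ ab.1 * (ζ ^ m) ^ ab.2 := by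
      intro i
      obtain ⟨a, b, hb, hab⟩ := split_exp hl0 hcop hζ1 (t i)
      exact ⟨(a, b), hb, hab⟩
    choose g hg1 hg2 using hab
    obtain ⟨s0, hs0, hs0'⟩ : ∃ s0 ∈ range l, s0 ∉ I.image (fun i => (g i).2) := by
      apply exists_mem_notMem_of_card_lt_card
      rw [card_range]
      exact card_image_le.trans_lt hcard
    rw [mem_range] at hs0
    have hs : ∀ i ∈ I, ((g i).2 + (l - 1 - s0)) % l < l - 1 := by
      intro i hi
      have h3 : (g i).2 ≠ s0 := fun h' => hs0' (mem_image.2 ⟨i, hi, h'⟩)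
      have h4 := hg1 i
      by_cases h5 : (g i).2 + (l - 1 - s0) < l
      · rw [Nat.mod_eq_of_lt h5]
        omega
      · rw [Nat.mod_eq_sub_mod (by omega), Nat.mod_eq_of_lt (by omega)]
        omega
    have hthm : ∀ i ∈ I, z i * ((z i0)⁻¹ * (ζ ^ m) ^ (l - 1 - s0)) =
        (ζ ^ l) ^ (g i).1 * (ζ ^ m) ^ (((g i).2 + (l - 1 - s0)) % l) := by
      intro i hi
      rw [← pow_eq_pow_mod _ hξ1, pow_add, ← mul_assoc, ht i hi, hg2 i]
      ring
    exact finish hD hξ0 I c z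
      (fun i => (ζ ^ l) ^ (g i).1) (fun i => ((g i).2 + (l - 1 - s0)) % l)
      ((z i0)⁻¹ * (ζ ^ m) ^ (l - 1 - s0)) hcK (fun i _ => ⟨hK1 _, hK3 _⟩) hs
      (mul_ne_zero (inv_ne_zero hz0) (pow_ne_zero _ hξ0)) hthm hint hmin i0 hi0

lemma bounded {ι : Type*} {α : Ω} (hα : IsIntegral ℚ α) {f N : ℕ} (hf : 0 < f) (hN : 0 < N)
    (hdeg : ∀ m : ℕ, 0 < m → f ∣ m → (minpoly (CF Ω m) α).natDegree = (minpoly (CF Ω f) α).natDegree)
    (I : Finset ι) (c z : ι → Ω)
    (hc : ∀ i ∈ I, c i ∈ ℚ⟮α⟯) (hz : ∀ i ∈ I, z i ^ N = 1) (hint : ∑ i ∈ I, c i * z i = 0)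
    (hmin : ∀ J ⊆ I, J.Nonempty → ∑ i ∈ J, c i * z i = 0 → J = I) :
    ∀ i ∈ I, ∀ j ∈ I, (z i / z j) ^ (f * primorial I.card) = 1 := by
  classical
  have hex : ∃ n : ℕ, 0 < n ∧ f ∣ n ∧ ∀ i ∈ I, ∀ j ∈ I, (z i / z j) ^ n = 1 := by
    refine ⟨f * N, Nat.mul_pos hf hN, Dvd.intro _ rfl, fun i hi j hj => ?_⟩
    rw [mul_comm, pow_mul, div_pow, hz i hi, hz j hj, div_one, one_pow]
  obtain ⟨hn0, ⟨k, hk⟩, hn⟩ := Nat.find_spec hex
  have hmin' : ∀ n, n < Nat.find hex → ¬ (0 < n ∧ f ∣ n ∧ ∀ i ∈ I, ∀ j ∈ I, (z i / z j) ^ n = 1) :=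
    fun n hn => Nat.find_min hex hn
  obtain ⟨n0, hn0'⟩ : ∃ n0, n0 = Nat.find hex := ⟨_, rfl⟩
  rw [← hn0'] at hn0 hk hn hmin'
  have hk0 : 0 < k := by
    rcases Nat.eq_zero_or_pos k with h | h
    · rw [h, mul_zero] at hk
      omega
    · exact h
  -- every prime divisor of `k`
  have hp : ∀ l k' : ℕ, l.Prime → k = l * k' → ¬ (l ∣ f * k' ∨ I.card < l) := by
    intro l k' hl hkk hor
    have hk'0 : 0 < k' := by
      rcases Nat.eq_zero_or_pos k' with h | h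
      · rw [h, mul_zero] at hkk
        omega
      · exact h
    have hm : 0 < f * k' := Nat.mul_pos hf hk'0
    have e : n0 = l * (f * k') := by rw [hk, hkk]; ring
    have hd : (minpoly (CF Ω (f * k')) α).natDegree = (minpoly (CF Ω (l * (f * k'))) α).natDegree := by
      rw [hdeg _ hm (Dvd.intro _ rfl), hdeg _ (Nat.mul_pos hl.pos hm) (Dvd.dvd.mul_left (Dvd.intro _ rfl) l)]
    have h1 := step hα hl hm hd I hor c z hc hN hz hint hmin (by rw [← e]; exact hn)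
    refine hmin' (f * k') ?_ ⟨hm, Dvd.intro _ rfl, h1⟩
    rw [e]
    have := hl.two_le
    nlinarith
  have hsq : Squarefree k := by
    rw [Nat.squarefree_iff_prime_squarefree]
    rintro l hl ⟨k'', hk''⟩
    refine hp l (l * k'') hl (by rw [hk'', mul_assoc]) (Or.inl ?_)
    exact Dvd.dvd.mul_left (Dvd.intro _ rfl) f
  have hkp : k ∣ primorial I.card := by
    rw [← Nat.prod_primeFactors_of_squarefree hsq]
    unfold primorial
    refine prod_dvd_prod_of_subset _ _ _ fun l hl => ?_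
    have hlp := Nat.prime_of_mem_primeFactors hl
    obtain ⟨k', hk'⟩ := Nat.dvd_of_mem_primeFactors hl
    have h1 := hp l k' hlp hk'
    rw [mem_filter, mem_range]
    refine ⟨?_, hlp⟩
    by_contra hcon
    exact h1 (Or.inr (by omega))
  intro i hi j hj
  obtain ⟨r, hr⟩ := hkp
  rw [hr, ← mul_assoc, ← hk, pow_mul, hn i hi j hj, one_pow]

end

/-- package MAN -/
theorem man : Pool.Agent.P8H10.KM.S_MAN := by
  intro Ω _ _ _ _ n a
  classical
  -- the primitive element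
  obtain ⟨α, hα⟩ : ∃ α : Ω, ∀ i, a i ∈ ℚ⟮α⟯ := by
    obtain ⟨F, hF⟩ : ∃ F : IntermediateField ℚ Ω, F = IntermediateField.adjoin ℚ (Set.range a) := ⟨_, rfl⟩
    have hfin : FiniteDimensional ℚ F := by
      rw [hF]
      exact IntermediateField.finiteDimensional_adjoin
        (fun x _ => (Algebra.IsAlgebraic.isAlgebraic (R := ℚ) x).isIntegral)
    obtain ⟨α, hα⟩ := Field.exists_primitive_element ℚ F
    refine ⟨α, fun i => ?_⟩
    have h1 : a i ∈ F := by
      rw [hF]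
      exact IntermediateField.subset_adjoin _ _ ⟨i, rfl⟩
    have h2 : (⟨a i, h1⟩ : F) ∈ ℚ⟮α⟯ := by rw [hα]; exact IntermediateField.mem_top
    have h3 : ∀ x ∈ ℚ⟮α⟯, (x : Ω) ∈ ℚ⟮(α : Ω)⟯ := by
      intro x hx
      induction hx using IntermediateField.adjoin_induction with
      | mem x hx =>
        rw [Set.mem_singleton_iff.1 hx]
        exact mem_adjoin_simple_self ℚ (α : Ω)
      | algebraMap r =>
        have e1 : ((algebraMap ℚ F r : F) : Ω) = algebraMap ℚ Ω r := by simp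
        rw [e1]
        exact ℚ⟮(α : Ω)⟯.algebraMap_mem r
      | add x y _ _ h1 h2 => exact ℚ⟮(α : Ω)⟯.add_mem h1 h2
      | inv x _ h1 => exact ℚ⟮(α : Ω)⟯.inv_mem h1
      | mul x y _ _ h1 h2 => exact ℚ⟮(α : Ω)⟯.mul_mem h1 h2
    exact h3 _ h2
  have hαi : IsIntegral ℚ α := (Algebra.IsAlgebraic.isAlgebraic (R := ℚ) α).isIntegral
  -- the minimal degree
  have hex : ∃ d : ℕ, ∃ f : ℕ, 0 < f ∧ (minpoly (CF Ω f) α).natDegree = d := ⟨_, 1, one_pos, rfl⟩
  obtain ⟨f, hf, hfd⟩ := Nat.find_spec hex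
  have hdeg : ∀ m : ℕ, 0 < m → f ∣ m →
      (minpoly (CF Ω m) α).natDegree = (minpoly (CF Ω f) α).natDegree := by
    intro m hm hfm
    apply le_antisymm
    · exact deg_mono (CF_mono hfm) hαi
    · rw [hfd]
      exact Nat.find_min' hex ⟨m, hm, rfl⟩
  refine ⟨f * primorial n, Nat.mul_pos hf (primorial_pos n), ?_⟩
  intro η hη hsum hmin i j
  choose N hN hN1 using hη
  have h1 := bounded hαi hf (Finset.prod_pos (s := univ) (fun i _ => hN i)) hdeg univ a η
    (fun i _ => hα i) (fun i _ => by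
      obtain ⟨k, hk⟩ := Finset.dvd_prod_of_mem N (mem_univ i)
      rw [hk, pow_mul, hN1 i, one_pow]) hsum (fun J _ hJ hJs => hmin J hJ hJs) i (mem_univ i) j
      (mem_univ j)
  rwa [card_univ, Fintype.card_fin] at h1

end Pool.Agent.P8H52.KM.Man
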